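import Pool.Agent.Lib.MP_9e2694_an.Ext

/-!
# The asymptotic `L^p` norm of the Beurling transform

The norm of the Beurling transform on `L^p(ℝ²)` is asymptotic to `p` for `p → ∞`.
-/

set_option autoImplicit false

namespace Pool.Agent.Results.MP_9e2694_an.NormLimit

open MeasureTheory Filter Topology
open scoped ContDiff ENNReal

/-- `Tg` is the Beurling transform of `g`: at every point `x` the principal value
`-1/π ∫ g(y) / (x - y)² dm(y)` exists and is `Tg x`. -/
def IsBeurling (g Tg : ℂ → ℂ) : Prop :=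
  ∀ x : ℂ, Tendsto (fun ε : ℝ => -(1 / (Real.pi : ℂ)) *
    ∫ y in {y : ℂ | ε < ‖x - y‖}, g y / (x - y) ^ 2) (𝓝[>] (0 : ℝ)) (𝓝 (Tg x))

/-- The bounded operator `A` on `L^p(ℝ²)` extends the Beurling transform of the smooth compactly
supported functions. -/
def Extends (p : ℝ≥0∞) [Fact (1 ≤ p)]
    (A : Lp ℂ p (volume : Measure ℂ) →L[ℂ] Lp ℂ p (volume : Measure ℂ)) : Prop :=
  ∀ g Tg : ℂ → ℂ, ContDiff ℝ ∞ g → HasCompactSupport g → IsBeurling g Tg →
    ∀ u : Lp ℂ p (volume : Measure ℂ), u =ᵐ[volume] g → A u =ᵐ[volume] Tg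

/-- The supremum of `‖Tg‖_p / ‖g‖_p` over the smooth compactly supported functions `g ≠ 0`. -/
noncomputable def normT (p : ℝ) : ℝ≥0∞ :=
  ⨆ (g : ℂ → ℂ) (Tg : ℂ → ℂ) (_ : ContDiff ℝ ∞ g) (_ : HasCompactSupport g) (_ : g ≠ 0)
    (_ : IsBeurling g Tg), eLpNorm Tg (ENNReal.ofReal p) volume / eLpNorm g (ENNReal.ofReal p) volume

open Pool.Agent.Lib.MP_9e2694_an

theorem isBeurling_beu {g : ℂ → ℂ} (hg : Test g) : IsBeurling g (Beu g) := pv_tendsto hg

theorem eq_beu {g Tg : ℂ → ℂ} (hg : Test g) (h : IsBeurling g Tg) : Tg = Beu g :=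
  funext fun x => tendsto_nhds_unique (h x) (pv_tendsto hg x)

theorem eLpNorm_ne_zero {g : ℂ → ℂ} (hg : Test g) (h0 : g ≠ 0) {p : ℝ} (hp : 0 < p) :
    eLpNorm g (ENNReal.ofReal p) volume ≠ 0 := by
  intro h
  rw [eLpNorm_eq_zero_iff hg.continuous.aestronglyMeasurable (ENNReal.ofReal_pos.2 hp).ne'] at h
  exact h0 ((Continuous.ae_eq_iff_eq volume hg.continuous continuous_const).1 h)

theorem le_normT {g : ℂ → ℂ} (hg : Test g) (h0 : g ≠ 0) (p : ℝ) :
    eLpNorm (Beu g) (ENNReal.ofReal p) volume / eLpNorm g (ENNReal.ofReal p) volume ≤ normT p := by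
  unfold normT
  exact le_iSup_of_le g (le_iSup_of_le (Beu g) (le_iSup_of_le hg.1 (le_iSup_of_le hg.2
    (le_iSup_of_le h0 (le_iSup_of_le (isBeurling_beu hg) le_rfl)))))

theorem eLpNorm_beu_le_normT {g : ℂ → ℂ} (hg : Test g) {p : ℝ} (hp : 0 < p) :
    eLpNorm (Beu g) (ENNReal.ofReal p) volume ≤ normT p * eLpNorm g (ENNReal.ofReal p) volume := by
  by_cases h0 : g = 0
  · rw [h0]
    have : Beu (0 : ℂ → ℂ) = 0 := beu_zero
    rw [this, eLpNorm_zero]
    exact zero_le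
  · exact (ENNReal.div_le_iff (eLpNorm_ne_zero hg h0 hp) (ext_memLp hg).2.ne).1 (le_normT hg h0 p)

theorem normT_le {p : ℝ} {C : ℝ≥0∞} (h : ∀ g : ℂ → ℂ, Test g →
    eLpNorm (Beu g) (ENNReal.ofReal p) volume ≤ C * eLpNorm g (ENNReal.ofReal p) volume) :
    normT p ≤ C := by
  unfold normT
  refine iSup_le fun g => iSup_le fun Tg => iSup_le fun h1 => iSup_le fun h2 => iSup_le fun _ =>
    iSup_le fun h4 => ?_
  rw [eq_beu ⟨h1, h2⟩ h4]
  exact ENNReal.div_le_of_le_mul (h g ⟨h1, h2⟩)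

theorem tendsto_normT :
    Tendsto (fun p : ℝ => normT p / ENNReal.ofReal p) atTop (𝓝 1) := by
  refine tendsto_order.2 ⟨fun a ha => ?_, fun a ha => ?_⟩
  · obtain ⟨r, hr0, har, hr1⟩ := ENNReal.lt_iff_exists_real_btwn.1 ha
    have hr1' : r < 1 := by
      rw [← ENNReal.ofReal_one] at hr1
      exact (ENNReal.ofReal_lt_ofReal_iff one_pos).1 hr1
    filter_upwards [lower_eventually (1 - r) (by linarith),
      eventually_gt_atTop (0 : ℝ)] with p hp hp0
    obtain ⟨h, hh, h0, ht, hle⟩ := hp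
    have hp0' : ENNReal.ofReal p ≠ 0 := (ENNReal.ofReal_pos.2 hp0).ne'
    refine har.trans_le ?_
    rw [ENNReal.le_div_iff_mul_le (Or.inl hp0') (Or.inl ENNReal.ofReal_ne_top),
      ← ENNReal.ofReal_mul hr0]
    have h3 := eLpNorm_beu_le_normT hh.dzb hp0
    rw [ext_beu_dzb hh] at h3
    have h4 := hle.trans h3
    rw [sub_sub_cancel] at h4
    exact (ENNReal.mul_le_mul_iff_left h0 ht).1 h4
  · obtain ⟨r, hr0, h1r, hra⟩ := ENNReal.lt_iff_exists_real_btwn.1 ha
    have hr1' : 1 < r := by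
      rw [← ENNReal.ofReal_one] at h1r
      by_contra hcon
      exact absurd h1r (not_lt.2 (ENNReal.ofReal_le_ofReal (not_lt.1 hcon)))
    filter_upwards [ext_upper (r - 1) (by linarith), eventually_gt_atTop (0 : ℝ)] with p hp hp0
    have hp0' : ENNReal.ofReal p ≠ 0 := (ENNReal.ofReal_pos.2 hp0).ne'
    refine lt_of_le_of_lt ?_ hra
    rw [ENNReal.div_le_iff hp0' ENNReal.ofReal_ne_top, ← ENNReal.ofReal_mul hr0]
    refine normT_le fun g hg => ?_
    have h5 := hp g hg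
    rwa [add_sub_cancel] at h5

/-- The norm of the extension. -/
theorem norm_extends {p : ℝ} (hp0 : 0 < p) [Fact (1 ≤ ENNReal.ofReal p)] (hfin : normT p ≠ ⊤)
    {A : Lp ℂ (ENNReal.ofReal p) (volume : Measure ℂ) →L[ℂ]
      Lp ℂ (ENNReal.ofReal p) (volume : Measure ℂ)}
    (hA : Extends (ENNReal.ofReal p) A) : ENNReal.ofReal ‖A‖ = normT p := by
  have hval : ∀ g : testSub, ‖A (testInc (ENNReal.ofReal p) g)‖ =
      (eLpNorm (Beu g.1) (ENNReal.ofReal p) volume).toReal := by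
    intro g
    have h1 := hA g.1 (Beu g.1) g.2.1 g.2.2 (isBeurling_beu g.2) (testInc (ENNReal.ofReal p) g)
      (MemLp.coeFn_toLp (ext_memLp g.2))
    rw [Lp.norm_def, eLpNorm_congr_ae h1]
  apply le_antisymm
  · rw [← ENNReal.ofReal_toReal hfin]
    apply ENNReal.ofReal_le_ofReal
    refine A.opNorm_le_bound ENNReal.toReal_nonneg fun u => ?_
    refine (testInc_dense (p := ENNReal.ofReal p) ENNReal.ofReal_ne_top).induction
      (P := fun u => ‖A u‖ ≤ (normT p).toReal * ‖u‖) ?_ (isClosed_le (by fun_prop) (by fun_prop)) u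
    rintro _ ⟨g, rfl⟩
    rw [hval, norm_testInc, ← ENNReal.toReal_mul]
    exact ENNReal.toReal_mono (ENNReal.mul_ne_top hfin (ext_memLp g.2).2.ne)
      (eLpNorm_beu_le_normT g.2 hp0)
  · refine normT_le fun g hg => ?_
    have h1 := A.le_opNorm (testInc (ENNReal.ofReal p) ⟨g, hg⟩)
    rw [hval, norm_testInc] at h1
    have h2 : eLpNorm (Beu g) (ENNReal.ofReal p) volume ≠ ⊤ :=
      ((eLpNorm_beu_le_normT hg hp0).trans_lt
        (ENNReal.mul_lt_top hfin.lt_top (ext_memLp hg).2)).ne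
    rw [← ENNReal.ofReal_toReal h2, ← ENNReal.ofReal_toReal (ext_memLp hg).2.ne,
      ← ENNReal.ofReal_mul (norm_nonneg _)]
    exact ENNReal.ofReal_le_ofReal h1

/-- The extension exists and is unique. -/
theorem exists_extends {p : ℝ} (hp0 : 0 < p) [Fact (1 ≤ ENNReal.ofReal p)] (hfin : normT p ≠ ⊤) :
    ∃! A : Lp ℂ (ENNReal.ofReal p) (volume : Measure ℂ) →L[ℂ]
      Lp ℂ (ENNReal.ofReal p) (volume : Measure ℂ), Extends (ENNReal.ofReal p) A := by
  have hb : ∀ g : ℂ → ℂ, Test g → eLpNorm (Beu g) (ENNReal.ofReal p) volume ≤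
      normT p * eLpNorm g (ENNReal.ofReal p) volume := fun g hg => eLpNorm_beu_le_normT hg hp0
  have hd := testInc_dense (p := ENNReal.ofReal p) ENNReal.ofReal_ne_top
  refine ⟨(testBeu hfin hb).extendOfNorm (testInc (ENNReal.ofReal p)), ?_, ?_⟩
  · intro g Tg h1 h2 h3 u hu
    have hg : Test g := ⟨h1, h2⟩
    rw [eq_beu hg h3]
    have hu' : u = testInc (ENNReal.ofReal p) ⟨g, hg⟩ := by
      apply Lp.ext
      exact hu.trans (MemLp.coeFn_toLp (ext_memLp hg)).symm
    rw [hu', LinearMap.extendOfNorm_eq hd ⟨_, norm_testBeu_le hfin hb⟩]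
    exact MemLp.coeFn_toLp (ext_memLp_beu hfin hb hg)
  · intro A hA
    refine (LinearMap.extendOfNorm_unique hd _ (norm_testBeu_le hfin hb) A ?_).symm
    ext1 g
    apply Lp.ext
    refine (hA g.1 (Beu g.1) g.2.1 g.2.2 (isBeurling_beu g.2) (testInc (ENNReal.ofReal p) g)
      (MemLp.coeFn_toLp (ext_memLp g.2))).trans ?_
    exact (MemLp.coeFn_toLp (ext_memLp_beu hfin hb g.2)).symm

/-- **The norm of the Beurling transform on `L^p` is asymptotic to `p`.** The principal value exists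
for all smooth compactly supported functions; for all large `p` the transform extends uniquely to a
bounded operator on `L^p(ℝ²)`, whose norm is the supremum `normT p` of the quotients; and
`normT p / p` tends to `1` for `p → ∞`, so that also its lower limit is `1`. -/
theorem result :
    (∀ g : ℂ → ℂ, ContDiff ℝ ∞ g → HasCompactSupport g → ∃! Tg : ℂ → ℂ, IsBeurling g Tg) ∧
    (∀ᶠ p : ℝ in atTop, ∀ [Fact (1 ≤ ENNReal.ofReal p)],
      ∃! A : Lp ℂ (ENNReal.ofReal p) (volume : Measure ℂ) →L[ℂ]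
        Lp ℂ (ENNReal.ofReal p) (volume : Measure ℂ), Extends (ENNReal.ofReal p) A) ∧
    (∀ᶠ p : ℝ in atTop, ∀ [Fact (1 ≤ ENNReal.ofReal p)]
      (A : Lp ℂ (ENNReal.ofReal p) (volume : Measure ℂ) →L[ℂ]
        Lp ℂ (ENNReal.ofReal p) (volume : Measure ℂ)),
      Extends (ENNReal.ofReal p) A → ENNReal.ofReal ‖A‖ = normT p) ∧
    Tendsto (fun p : ℝ => (normT p).toReal / p) atTop (𝓝 1) ∧
    liminf (fun p : ℝ => normT p / ENNReal.ofReal p) atTop = 1 := by
  have hfin : ∀ᶠ p : ℝ in atTop, 0 < p ∧ normT p ≠ ⊤ := by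
    filter_upwards [ext_upper 1 one_pos, eventually_gt_atTop (0 : ℝ)] with p hp hp0
    exact ⟨hp0, ((normT_le hp).trans_lt ENNReal.ofReal_lt_top).ne⟩
  refine ⟨fun g h1 h2 => ⟨Beu g, isBeurling_beu ⟨h1, h2⟩, fun Tg h => eq_beu ⟨h1, h2⟩ h⟩,
    ?_, ?_, ?_, tendsto_normT.liminf_eq⟩
  · filter_upwards [hfin] with p hp
    intro _
    exact exists_extends hp.1 hp.2
  · filter_upwards [hfin] with p hp
    intro _ A hA
    exact norm_extends hp.1 hp.2 hA
  · have h1 := (ENNReal.tendsto_toReal ENNReal.one_ne_top).comp tendsto_normT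
    rw [ENNReal.toReal_one] at h1
    refine h1.congr' ?_
    filter_upwards [eventually_gt_atTop (0 : ℝ)] with p hp
    simp only [Function.comp_apply, ENNReal.toReal_div, ENNReal.toReal_ofReal hp.le]

end Pool.Agent.Results.MP_9e2694_an.NormLimit
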